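import Pool.Agent.K3h5.FF.Stm

/-! FF project (helper5, MP_264509_pr), brick FRW (helper93). -/

set_option autoImplicit false

open MeasureTheory Filter Topology ProbabilityTheory Set

namespace Pool.Agent.K3h93.FF

open Pool.Agent.K3h5.FF

theorem labT_finite {n : ℕ} (S : ℕ) (π : Equiv.Perm (Fin n)) :
    {x | ∃ l ∈ Win S, LabT S π l x}.Finite := by
  refine (Set.finite_range fun p : Fin n => (((π p : Fin n) : ℕ) : ℤ)).subset ?_
  rintro x ⟨l, -, hl, -⟩
  rcases l with k | j
  · obtain ⟨p, hp, -⟩ := hl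
    exact ⟨p, hp⟩
  · obtain ⟨p, -, hp⟩ := hl
    exact ⟨p, hp⟩

theorem labT_unique {n : ℕ} (S : ℕ) (π : Equiv.Perm (Fin n)) : ∀ l ∈ Win S, ∀ l' ∈ Win S, ∀ x,
    LabT S π l x → LabT S π l' x → l = l' := by
  have inj : ∀ (p p' : Fin n) (x : ℤ), (((π p : Fin n) : ℕ) : ℤ) = x →
      (((π p' : Fin n) : ℕ) : ℤ) = x → p = p' := by
    intro p p' x h h'
    apply π.injective
    apply Fin.ext
    omega
  have mix : ∀ (k : ℤ) (j : ℕ) (x : ℤ), Sum.inl k ∈ Win S → Sum.inr j ∈ Win S →
      LabT S π (Sum.inl k) x → LabT S π (Sum.inr j) x → False := by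
    rintro k j x hk hj ⟨⟨p, h1, h2⟩, h3⟩ ⟨⟨p', h4, h5⟩, -⟩
    have h6 := inj p p' x h1 h5
    subst h6
    rw [Win, Finset.inl_mem_disjSum, Finset.mem_Icc] at hk
    rw [Win, Finset.inr_mem_disjSum, Finset.mem_range] at hj
    omega
  intro l hl l' hl' x h h'
  rcases l with k | j <;> rcases l' with k' | j'
  · obtain ⟨⟨p, h1, h2⟩, -⟩ := h
    obtain ⟨⟨p', h3, h4⟩, -⟩ := h'
    have h6 := inj p p' x h1 h3
    subst h6
    rw [← h2, ← h4]
  · exact (mix k j' x hl hl' h h').elim
  · exact (mix k' j x hl' hl h' h).elim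
  · obtain ⟨⟨p, h1, h2⟩, -⟩ := h
    obtain ⟨⟨p', h3, h4⟩, -⟩ := h'
    have h6 := inj p p' x h2 h4
    subst h6
    rw [← h1, ← h3]

theorem subs_le {l m : ℕ} (u : Fin l → Label) (w : Fin m → Label) : subs u w ≤ 2 ^ l := by
  classical
  unfold subs
  have h : (Finset.univ : Finset (Finset (Fin l))).card = 2 ^ l := by
    rw [Finset.card_univ, Fintype.card_finset, Fintype.card_fin]
  rw [← h]
  refine Finset.card_le_card_of_injOn (fun f => Finset.univ.image f)
    (fun f _ => Finset.mem_coe.2 (Finset.mem_univ _)) ?_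
  intro f hf f' hf' hff
  have h1 : StrictMono f := (Finset.mem_filter.1 (Finset.mem_coe.1 hf)).2.1
  have h2 : StrictMono f' := (Finset.mem_filter.1 (Finset.mem_coe.1 hf')).2.1
  refine (h1.range_inj h2).1 ?_
  have h3 := congrArg (fun s : Finset (Fin l) => (s : Set (Fin l))) hff
  simpa using h3

open Classical in
/-- the indicator function of a word as a sum of numbers of occurrences -/
theorem indic (hI : S_INV) {n : ℕ} (S : ℕ) (π : Equiv.Perm (Fin n)) (m : ℕ) (w : Wd S m) :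
    HasSum (fun l : ℕ => ∑ u : Wd S l, (-1 : ℝ) ^ (l + m) * (occ (LabT S π) (wd u)).ncard *
      subs (wd u) (wd w)) (if IsWord S (LabT S π) (wd w) then 1 else 0) := by
  obtain ⟨-, -, -, h4⟩ := hI ℤ S (LabT S π) (labT_finite S π) (labT_unique S π)
  obtain ⟨l₀, h0, h1, h2⟩ := h4 m w
  have h : HasSum (fun l : ℕ => ∑ u : Wd S l, (-1 : ℝ) ^ (l + m) *
      (occ (LabT S π) (wd u)).ncard * subs (wd u) (wd w))
      (∑ l ∈ Finset.range l₀, ∑ u : Wd S l, (-1 : ℝ) ^ (l + m) *
      (occ (LabT S π) (wd u)).ncard * subs (wd u) (wd w)) := by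
    refine hasSum_sum_of_ne_finset_zero fun l hl => ?_
    rw [Finset.mem_range, not_lt] at hl
    refine Finset.sum_eq_zero fun u _ => ?_
    rw [h0 l hl u, Nat.cast_zero, mul_zero, zero_mul]
  by_cases hw : IsWord S (LabT S π) (wd w)
  · rw [if_pos hw]
    rw [h1 hw] at h
    exact h
  · rw [if_neg hw]
    rw [h2 hw] at h
    exact h

theorem ET_nonneg (P : (n : ℕ) → Equiv.Perm (Fin n) → ℝ) (hP : ∀ n π, 0 ≤ P n π) (S n : ℕ) {l : ℕ}
    (u : Fin l → Label) : 0 ≤ ET P S n u :=
  Finset.sum_nonneg fun π _ => mul_nonneg (hP n π) (Nat.cast_nonneg _)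

theorem pr_eq (hI : S_INV) (P : (n : ℕ) → Equiv.Perm (Fin n) → ℝ) (S n m : ℕ) (w : Wd S m) :
    HasSum (fun l : ℕ => ∑ u : Wd S l, (-1 : ℝ) ^ (l + m) * ET P S n (wd u) *
      subs (wd u) (wd w)) (pr (P n) {π | IsWord S (LabT S π) (wd w)}) := by
  classical
  have h := hasSum_sum (s := (Finset.univ : Finset (Equiv.Perm (Fin n))))
    (fun π _ => (indic hI S π m w).mul_left (P n π))
  have e1 : (∑ π : Equiv.Perm (Fin n), P n π * (if IsWord S (LabT S π) (wd w) then (1 : ℝ) else 0)) =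
      pr (P n) {π | IsWord S (LabT S π) (wd w)} := by
    unfold pr
    refine Finset.sum_congr rfl fun π _ => ?_
    rw [Set.mem_ofPred_eq]
    split_ifs <;> simp
  rw [← e1]
  refine h.congr_fun fun l => ?_
  unfold ET
  simp only [Finset.mul_sum, Finset.sum_mul]
  rw [Finset.sum_comm]
  refine Finset.sum_congr rfl fun u _ => Finset.sum_congr rfl fun π _ => ?_
  ring

theorem t_FRW : S_INV → S_ETB → S_ETL → S_FRW := by
  classical
  intro hI hB hL P lam phi hM S m w
  obtain ⟨C, hC, hb⟩ := hM.bound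
  obtain ⟨-, hB2, -⟩ := hB P C hC hM.nonneg hb
  refine ⟨?_, ?_⟩
  · have e : (fun n => pr (P n) {π | IsWord S (LabT S π) (wd w)}) =
        fun n => ∑' l : ℕ, ∑ u : Wd S l, (-1 : ℝ) ^ (l + m) * ET P S n (wd u) *
          subs (wd u) (wd w) := funext fun n => (pr_eq hI P S n m w).tsum_eq.symm
    rw [e, limW]
    refine tendsto_tsum_of_dominated_convergence
      (bound := fun l : ℕ => (((Win S).card : ℝ) * C * 2) ^ l / (l.factorial : ℝ))
      (Real.summable_pow_div_factorial _) (fun l => ?_) (Eventually.of_forall fun n l => ?_)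
    · refine tendsto_finsetSum _ fun u _ => ?_
      exact ((hL P lam phi hM S l (wd u)).const_mul _).mul_const _
    · have h1 : ∀ u : Wd S l, ‖(-1 : ℝ) ^ (l + m) * ET P S n (wd u) * subs (wd u) (wd w)‖ ≤
          C ^ l / (l.factorial : ℝ) * 2 ^ l := by
        intro u
        rw [norm_mul, norm_mul, norm_pow, norm_neg, norm_one, one_pow, one_mul,
          Real.norm_of_nonneg (ET_nonneg P hM.nonneg S n (wd u)),
          Real.norm_of_nonneg (Nat.cast_nonneg _)]
        refine mul_le_mul (hB2 S n l (wd u)) ?_ (Nat.cast_nonneg _) (by positivity)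
        exact_mod_cast subs_le (wd u) (wd w)
      refine (norm_sum_le _ _).trans ((Finset.sum_le_sum fun u _ => h1 u).trans (le_of_eq ?_))
      rw [Finset.sum_const, Finset.card_univ, nsmul_eq_mul, Fintype.card_fun, Fintype.card_fin,
        Fintype.card_coe]
      push_cast
      rw [mul_pow, mul_pow]
      ring
  · have hV : ∀ (n : ℕ) (π : Equiv.Perm (Fin n)), ∃ V : (k : ℕ) × Wd S k,
        ∀ v : (k : ℕ) × Wd S k, IsWord S (LabT S π) (wd v.2) ↔ v = V := by
      intro n π
      obtain ⟨⟨k, u, hu⟩, h2, -, -⟩ := hI ℤ S (LabT S π) (labT_finite S π) (labT_unique S π)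
      refine ⟨⟨k, u⟩, fun v => ⟨fun hv => ?_, fun hv => ?_⟩⟩
      · exact h2 v.1 k v.2 u hv hu
      · rw [hv]
        exact hu
    have hs : ∀ n, HasSum (fun v : (k : ℕ) × Wd S k =>
        pr (P n) {π | IsWord S (LabT S π) (wd v.2)}) 1 := by
      intro n
      choose V hV using hV n
      rw [← hM.sum n]
      have h := hasSum_sum (s := (Finset.univ : Finset (Equiv.Perm (Fin n))))
        (fun π _ => hasSum_ite_eq (V π) (P n π))
      refine h.congr_fun fun v => ?_
      unfold pr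
      refine Finset.sum_congr rfl fun π _ => ?_
      rw [Set.mem_ofPred_eq]
      by_cases hv : v = V π
      · rw [if_pos ((hV π v).2 hv), if_pos hv]
      · rw [if_neg fun h => hv ((hV π v).1 h), if_neg hv]
    refine ⟨fun n => (hs n).tsum_eq, fun n => (hs n).summable, C, hC, fun l u => ⟨?_, ?_⟩⟩
    · exact ge_of_tendsto' (hL P lam phi hM S l u) fun n => ET_nonneg P hM.nonneg S n u
    · exact le_of_tendsto' (hL P lam phi hM S l u) fun n => hB2 S n l u

end Pool.Agent.K3h93.FF
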